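import Pool.Agent.Helper96.BC.St

/-! # Project BC, module C8 -/

set_option autoImplicit false

namespace Pool.Agent.Helper45.BC

open Pool.Agent.Helper96.BC Pool.Agent.Helper95.TT
open NumberField IsDedekindDomain Polynomial Filter Topology
open scoped Classical TensorProduct

private lemma wt_nonneg {k : Type} [Field k] [NumberField k] (s : ℝ) (v : Pr k) : 0 ≤ wt s v :=
  mul_nonneg (Real.log_natCast_nonneg _) (Real.rpow_nonneg (Nat.cast_nonneg _) _)

private lemma wt_le_one {k : Type} [Field k] [NumberField k] (h2 : ∀ v : Pr k, 2 ≤ q v)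
    (s : ℝ) (hs : 1 ≤ s) (v : Pr k) : wt s v ≤ 1 := by
  have hq : (2 : ℝ) ≤ (q v : ℝ) := by exact_mod_cast h2 v
  have h1 : Real.log (q v) ≤ (q v : ℝ) := Real.log_le_self (by linarith)
  have h3 : (q v : ℝ) ^ (-s) ≤ (q v : ℝ) ^ (-1 : ℝ) :=
    Real.rpow_le_rpow_of_exponent_le (by linarith) (by linarith)
  have h4 : (0 : ℝ) ≤ (q v : ℝ) ^ (-s) := Real.rpow_nonneg (by linarith) _
  calc wt s v = Real.log (q v) * (q v : ℝ) ^ (-s) := rfl
    _ ≤ (q v : ℝ) * (q v : ℝ) ^ (-1 : ℝ) :=
        mul_le_mul h1 h3 h4 (by linarith)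
    _ = 1 := by
        rw [Real.rpow_neg_one]
        exact mul_inv_cancel₀ (by linarith)

private lemma term_eq {k : Type} [Field k] [NumberField k] (h2 : ∀ v : Pr k, 2 ≤ q v)
    (R : Set (Pr k)) (b : Pr k → ℝ) (s : ℝ) :
    (fun v : Pr k => if v ∈ R then (0 : ℝ) else b v * Real.log (q v) * (q v : ℝ) ^ (-s)) =
      fun v => (if v ∈ R then (0 : ℝ) else b v / q v) * wt (s - 1) v := by
  funext v
  by_cases h : v ∈ R
  · simp [h]
  · have hq : (2 : ℝ) ≤ (q v : ℝ) := by exact_mod_cast h2 v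
    have e : (q v : ℝ) ^ (-(s - 1)) = (q v : ℝ) ^ (-s) * q v := by
      have : -(s - 1) = -s + 1 := by ring
      rw [this, Real.rpow_add (by linarith), Real.rpow_one]
    simp only [h, if_false]
    unfold wt
    rw [e]
    field_simp

private lemma sumb {k : Type} [Field k] [NumberField k] (hA2 : StA2) (f : Pr k → ℝ) (A : ℝ)
    (hf : ∀ v, |f v| ≤ A) (s : ℝ) (hs : 1 < s) : Summable (fun v => f v * wt s v) := by
  refine Summable.of_norm_bounded (g := fun v => A * wt s v) (((hA2 k).1 s hs).mul_left A) ?_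
  intro v
  rw [Real.norm_eq_abs, abs_mul, abs_of_nonneg (wt_nonneg s v)]
  exact mul_le_mul_of_nonneg_right (hf v) (wt_nonneg s v)

private lemma fin_bd {k : Type} [Field k] [NumberField k] (h2 : ∀ v : Pr k, 2 ≤ q v)
    (f : Pr k → ℝ) (A : ℝ) (hf : ∀ v, |f v| ≤ A) (Z : Set (Pr k)) (hZ : Z.Finite)
    (hz : ∀ v, v ∉ Z → f v = 0) : ∃ M : ℝ, ∀ s : ℝ, 1 < s → |∑' v, f v * wt s v| ≤ M := by
  refine ⟨hZ.toFinset.card * A, fun s hs => ?_⟩
  have e : ∑' v, f v * wt s v = ∑ v ∈ hZ.toFinset, f v * wt s v := by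
    apply tsum_eq_sum
    intro v hv
    rw [hz v (by simpa using hv), zero_mul]
  rw [e]
  refine (Finset.abs_sum_le_sum_abs _ _).trans ?_
  have : ∀ v ∈ hZ.toFinset, |f v * wt s v| ≤ A := by
    intro v _
    rw [abs_mul, abs_of_nonneg (wt_nonneg s v)]
    have h1 := wt_le_one h2 s hs.le v
    have h0 := wt_nonneg s v
    have ha := hf v
    have hb := abs_nonneg (f v)
    nlinarith
  calc ∑ v ∈ hZ.toFinset, |f v * wt s v| ≤ ∑ _v ∈ hZ.toFinset, A := Finset.sum_le_sum this
    _ = hZ.toFinset.card * A := by rw [Finset.sum_const, nsmul_eq_mul]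

private lemma mul_bdd_tendsto (g : ℝ → ℝ) (M : ℝ) (hg : ∀ s : ℝ, 1 < s → |g s| ≤ M) :
    Tendsto (fun s : ℝ => (s - 1) * g s) (𝓝[>] 1) (𝓝 0) := by
  have h1 : Tendsto (fun s : ℝ => (s - 1) * M) (𝓝[>] 1) (𝓝 0) := by
    have : Tendsto (fun s : ℝ => (s - 1) * M) (𝓝 1) (𝓝 ((1 - 1) * M)) :=
      (Continuous.tendsto (by fun_prop) 1)
    rw [sub_self, zero_mul] at this
    exact this.mono_left nhdsWithin_le_nhds
  refine squeeze_zero_norm' ?_ h1
  filter_upwards [self_mem_nhdsWithin] with s hs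
  have hs' : (1 : ℝ) < s := hs
  rw [Real.norm_eq_abs, abs_mul, abs_of_pos (by linarith : (0 : ℝ) < s - 1)]
  exact mul_le_mul_of_nonneg_left (hg s hs') (by linarith)

theorem hC8 : StA2 → StC1 → StC2 → StC6 → StC7 → StC8 := by
  intro hA2 hC1 hC2 hC6 hC7
  intro k _ _ b c B C R₀ hR₀ hb d hd ι _ K _ _ _ bK R hR hdeg hfield hbK hbeq
  have h2 : ∀ v : Pr k, 2 ≤ q v := (hC1 k k).2.2.2
  have h2K : ∀ i, ∀ v : Pr (K i), 2 ≤ q v := fun i => (hC1 (K i) (K i)).2.2.2
  -- the functions α, β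
  set α : Pr k → ℝ := fun v => if v ∈ R₀ then (0 : ℝ) else b v / q v with hα
  set β : ∀ i, Pr (K i) → ℝ := fun i w => if w ∈ R i then (0 : ℝ) else bK i w / q w with hβ
  have hqpos : ∀ v : Pr k, (0 : ℝ) < q v := fun v => by
    have : (2 : ℝ) ≤ (q v : ℝ) := by exact_mod_cast h2 v
    linarith
  have hqposK : ∀ i, ∀ v : Pr (K i), (0 : ℝ) < q v := fun i v => by
    have : (2 : ℝ) ≤ (q v : ℝ) := by exact_mod_cast h2K i v
    linarith
  set μ : Pr k → ℝ := fun v => if v ∈ R₀ then (0 : ℝ) else b v / q v - c with hμ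
  have hμb : ∀ v, |μ v| ≤ |B| := by
    intro v
    by_cases h : v ∈ R₀
    · simp [hμ, h]
    · simp only [hμ, h, if_false]
      have h1 := hb v h
      have e : b v / q v - c = (b v - c * q v) / q v := by
        field_simp [(hqpos v).ne']
      rw [e, abs_div, abs_of_pos (hqpos v), div_le_iff₀ (hqpos v)]
      exact h1.trans (mul_le_mul_of_nonneg_right (le_abs_self B) (hqpos v).le)
  have hαb : ∀ v, |α v| ≤ |c| + |B| := by
    intro v
    by_cases h : v ∈ R₀
    · simp only [hα, h, if_true, abs_zero]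
      positivity
    · have h1 := hμb v
      simp only [hμ, h, if_false] at h1
      simp only [hα, h, if_false]
      have : b v / q v = c + (b v / q v - c) := by ring
      rw [this]
      exact (abs_add_le _ _).trans (by linarith)
  have hβb : ∀ i w, |β i w| ≤ |C| := by
    intro i w
    by_cases h : w ∈ R i
    · simp [hβ, h]
    · simp only [hβ, h, if_false]
      rw [abs_div, abs_of_pos (hqposK i w), div_le_iff₀ (hqposK i w)]
      exact (hbK i w h).trans (mul_le_mul_of_nonneg_right (le_abs_self C) (hqposK i w).le)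
  have hFK0 : ∀ s, FK R₀ b s = ∑' v : Pr k, α v * wt (s - 1) v := by
    intro s
    unfold FK
    rw [term_eq h2]
  have hFKi : ∀ i s, FK (R i) (bK i) s = ∑' v : Pr (K i), β i v * wt (s - 1) v := by
    intro i s
    unfold FK
    rw [term_eq (h2K i)]
  refine ⟨?_, ?_, ?_⟩
  · intro s hs
    rw [term_eq h2]
    exact sumb hA2 α _ hαb (s - 1) (by linarith)
  · intro i s hs
    rw [term_eq (h2K i)]
    exact sumb hA2 (β i) _ (hβb i) (s - 1) (by linarith)
  -- N1
  have hN : ∀ i (v : Pr k), N1 (K i) v ≤ d := by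
    intro i v
    exact (((hC2 k (K i) (fun _ => 0) 0 (by simp)).1 v).2).trans (hdeg i)
  set N : ι → Pr k → ℝ := fun i v => (N1 (K i) v : ℝ) with hNdef
  have hN0 : ∀ i v, 0 ≤ N i v := fun i v => Nat.cast_nonneg _
  have hNd : ∀ i v, N i v ≤ d := fun i v => Nat.cast_le.mpr (hN i v)
  have hd1 : (1 : ℝ) ≤ d := by exact_mod_cast hd
  have hNabs : ∀ i v, |N i v| ≤ d := fun i v => by rw [abs_of_nonneg (hN0 i v)]; exact hNd i v
  -- comparison of FK i with the sum over k
  have hcmp : ∀ i, ∃ M : ℝ, ∀ s : ℝ, 1 < s →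
      |∑' w : Pr (K i), β i w * wt s w - ∑' v : Pr k, (N i v * α v) * wt s v| ≤ M := by
    intro i
    obtain ⟨hS, hsum, M, hM⟩ := hC2 k (K i) (β i) |C| (hβb i)
    -- exceptional set
    set Z : Set (Pr k) := R₀ ∪ {v | ∃ w ∈ R i, Above w v} with hZ
    have hZf : Z.Finite := by
      refine hR₀.union ?_
      have : {v : Pr k | ∃ w ∈ R i, Above w v} ⊆ ⋃ w ∈ R i, {v | Above w v} := by
        intro v hv
        obtain ⟨w, hw, hwv⟩ := hv
        simp only [Set.mem_iUnion]
        exact ⟨w, hw, hwv⟩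
      refine Set.Finite.subset (Set.Finite.biUnion (hR i) ?_) this
      intro w _
      obtain ⟨v0, _, hu⟩ := (hC1 k (K i)).1 w
      refine (Set.finite_singleton v0).subset ?_
      intro v hv
      exact hu v hv
    have hgood : ∀ v, v ∉ Z → S1 (β i) v - N i v * α v = 0 := by
      intro v hv
      have hv1 : v ∉ R₀ := fun h => hv (Or.inl h)
      have hv2 : ∀ w, Above w v → w ∉ R i := fun w hw h => hv (Or.inr ⟨w, h, hw⟩)
      have : Finite {w : Pr (K i) // Deg1 w v} := by
        have := ((hC1 k (K i)).2.2.1 v).1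
        have h3 : {w : Pr (K i) | Deg1 w v}.Finite := this.subset (fun w hw => hw.1)
        exact h3
      have := Fintype.ofFinite {w : Pr (K i) // Deg1 w v}
      have e : S1 (β i) v = N i v * α v := by
        unfold S1
        rw [finsum_eq_sum_of_fintype]
        have : ∀ w ∈ (Finset.univ : Finset {w : Pr (K i) // Deg1 w v}), β i w.1 = α v := by
          intro w _
          have hw := hv2 w.1 w.2.1
          simp only [hβ, hw, if_false, hα, hv1]
          rw [hbeq i w.1 v hw w.2, w.2.2]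
        rw [Finset.sum_congr rfl this, Finset.sum_const, nsmul_eq_mul, Finset.card_univ,
          ← Nat.card_eq_fintype_card]
        rfl
      rw [e, sub_self]
    have hbd : ∀ v, |S1 (β i) v - N i v * α v| ≤ |C| * d + d * (|c| + |B|) := by
      intro v
      have h1 : |S1 (β i) v| ≤ |C| * d :=
        ((hS v).1).trans (mul_le_mul_of_nonneg_left (hNd i v) (abs_nonneg C))
      have h3 : |N i v * α v| ≤ d * (|c| + |B|) := by
        rw [abs_mul]
        exact mul_le_mul (hNabs i v) (hαb v) (abs_nonneg _) (by linarith)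
      exact (abs_sub _ _).trans (add_le_add h1 h3)
    obtain ⟨M', hM'⟩ := fin_bd h2 _ _ hbd Z hZf hgood
    refine ⟨M + M', fun s hs => ?_⟩
    have hs1 : Summable (fun v : Pr k => S1 (β i) v * wt s v) := (hsum s hs).2
    have hs2 : Summable (fun v : Pr k => (N i v * α v) * wt s v) := by
      refine sumb hA2 (fun v => N i v * α v) (d * (|c| + |B|)) ?_ s hs
      intro v
      rw [abs_mul]
      exact mul_le_mul (hNabs i v) (hαb v) (abs_nonneg _) (by linarith)
    have e : ∑' v : Pr k, (S1 (β i) v - N i v * α v) * wt s v =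
        ∑' v : Pr k, S1 (β i) v * wt s v - ∑' v : Pr k, (N i v * α v) * wt s v := by
      rw [← hs1.tsum_sub hs2]
      congr 1
      funext v
      ring
    have h5 := hM s hs
    have h6 := hM' s hs
    rw [e] at h6
    have := abs_add_le (∑' w : Pr (K i), β i w * wt s w - ∑' v : Pr k, S1 (β i) v * wt s v)
      (∑' v : Pr k, S1 (β i) v * wt s v - ∑' v : Pr k, (N i v * α v) * wt s v)
    rw [sub_add_sub_cancel] at this
    linarith
  -- limits
  have hA : Tendsto (fun s : ℝ => (s - 1) * ∑' v : Pr k, wt s v) (𝓝[>] 1) (𝓝 1) := (hA2 k).2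
  have hsumN : ∀ i, ∀ s : ℝ, 1 < s → Summable (fun v : Pr k => N i v * wt s v) := fun i s hs =>
    sumb hA2 (N i) d (hNabs i) s hs
  have hsum1 : ∀ s : ℝ, 1 < s → Summable (fun v : Pr k => wt s v) := (hA2 k).1
  have hTN : ∀ i, Tendsto (fun s : ℝ => (s - 1) * ∑' v : Pr k, N i v * wt s v) (𝓝[>] 1) (𝓝 1) :=
    fun i => (hC6 k (K i)).1
  have hTNN : ∀ i j, i ≠ j →
      Tendsto (fun s : ℝ => (s - 1) * ∑' v : Pr k, N i v * N j v * wt s v) (𝓝[>] 1) (𝓝 1) :=
    fun i j hij => (hC6 k (K i)).2 (K j) (hfield i j hij)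
  set φ : ι → Pr k → ℝ := fun i v => N i v - 1 with hφ
  have hφb : ∀ i v, |φ i v| ≤ d + 1 := by
    intro i v
    have h1 := hN0 i v
    have h3 := hNd i v
    rw [hφ, abs_le]
    constructor <;> simp only <;> linarith
  set W : ℝ → Pr k → ℝ := fun s v => (s - 1) * wt s v with hW
  have hWsum : ∀ᶠ s : ℝ in 𝓝[>] 1, (∀ v, 0 ≤ W s v) ∧ Summable (W s) := by
    filter_upwards [self_mem_nhdsWithin] with s hs
    have hs' : (1 : ℝ) < s := hs
    exact ⟨fun v => mul_nonneg (by linarith) (wt_nonneg s v), (hsum1 s hs').mul_left _⟩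
  have hW1 : Tendsto (fun s => ∑' v : Pr k, W s v) (𝓝[>] 1) (𝓝 1) := by
    refine hA.congr (fun s => ?_)
    rw [hW, tsum_mul_left]
  have horth : ∀ i j, i ≠ j →
      Tendsto (fun s => ∑' v : Pr k, W s v * (φ i v * φ j v)) (𝓝[>] 1) (𝓝 0) := by
    intro i j hij
    have h1 := (((hTNN i j hij).sub (hTN i)).sub (hTN j)).add hA
    have e0 : (1 : ℝ) - 1 - 1 + 1 = 0 := by norm_num
    rw [e0] at h1
    refine h1.congr' ?_
    filter_upwards [self_mem_nhdsWithin] with s hs
    have hs' : (1 : ℝ) < s := hs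
    have sNN : Summable (fun v : Pr k => N i v * N j v * wt s v) := by
      refine sumb hA2 (fun v => N i v * N j v) (d * d) ?_ s hs'
      intro v
      rw [abs_mul]
      exact mul_le_mul (hNabs i v) (hNabs j v) (abs_nonneg _) (by linarith)
    have e1 : ∑' v : Pr k, W s v * (φ i v * φ j v) =
        (s - 1) * ∑' v : Pr k, (N i v * N j v * wt s v - N i v * wt s v - N j v * wt s v + wt s v) := by
      rw [← tsum_mul_left]
      congr 1
      funext v
      simp only [hW, hφ]
      ring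
    rw [e1, ((sNN.sub (hsumN i s hs')).sub (hsumN j s hs')).tsum_add (hsum1 s hs'),
      (sNN.sub (hsumN i s hs')).tsum_sub (hsumN j s hs'), sNN.tsum_sub (hsumN i s hs')]
    ring
  have hdiag : ∀ i, ∀ δ > 0, ∀ᶠ s : ℝ in 𝓝[>] 1,
      ∑' v : Pr k, W s v * φ i v ^ 2 ≤ ((d : ℝ) - 1) + δ := by
    intro i δ hδ
    have h1 : Tendsto (fun s : ℝ => ((d : ℝ) - 2) * ((s - 1) * ∑' v : Pr k, N i v * wt s v) +
        (s - 1) * ∑' v : Pr k, wt s v) (𝓝[>] 1) (𝓝 (((d : ℝ) - 2) * 1 + 1)) :=
      ((hTN i).const_mul _).add hA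
    have e0 : ((d : ℝ) - 2) * 1 + 1 = (d : ℝ) - 1 := by ring
    rw [e0] at h1
    have h3 := h1.eventually_le_const (by linarith : (d : ℝ) - 1 < ((d : ℝ) - 1) + δ)
    filter_upwards [h3, self_mem_nhdsWithin] with s h4 hs
    have hs' : (1 : ℝ) < s := hs
    refine le_trans ?_ h4
    have sA : Summable (fun v : Pr k => ((d : ℝ) - 2) * (N i v * wt s v) + wt s v) :=
      ((hsumN i s hs').mul_left _).add (hsum1 s hs')
    have sB : Summable (fun v : Pr k => φ i v ^ 2 * wt s v) := by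
      refine sumb hA2 (fun v => φ i v ^ 2) ((d + 1) ^ 2) ?_ s hs'
      intro v
      rw [abs_pow]
      exact pow_le_pow_left₀ (abs_nonneg _) (hφb i v) 2
    have e1 : ∑' v : Pr k, W s v * φ i v ^ 2 = (s - 1) * ∑' v : Pr k, φ i v ^ 2 * wt s v := by
      rw [← tsum_mul_left]
      congr 1
      funext v
      simp only [hW]
      ring
    have e2 : ((d : ℝ) - 2) * ((s - 1) * ∑' v : Pr k, N i v * wt s v) +
        (s - 1) * ∑' v : Pr k, wt s v =
        (s - 1) * ∑' v : Pr k, (((d : ℝ) - 2) * (N i v * wt s v) + wt s v) := by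
      rw [((hsumN i s hs').mul_left _).tsum_add (hsum1 s hs'), tsum_mul_left]
      ring
    rw [e1, e2]
    refine mul_le_mul_of_nonneg_left (sB.tsum_le_tsum (fun v => ?_) sA) (by linarith)
    have h5 := hN0 i v
    have h6 := hNd i v
    have h7 := wt_nonneg s v
    have h8 : φ i v ^ 2 ≤ ((d : ℝ) - 2) * N i v + 1 := by
      simp only [hφ]
      nlinarith
    calc φ i v ^ 2 * wt s v ≤ (((d : ℝ) - 2) * N i v + 1) * wt s v :=
          mul_le_mul_of_nonneg_right h8 h7
      _ = ((d : ℝ) - 2) * (N i v * wt s v) + wt s v := by ring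
  -- Bessel
  have hBess := hC7 (Pr k) ι W μ φ |B| ((d : ℝ) - 1) ((d : ℝ) + 1) (by linarith) hWsum hW1 hμb hφb
    horth hdiag
  -- the differences
  set y : ι → ℝ → ℝ := fun i s => ∑' v : Pr k, W s v * (μ v * φ i v) with hy
  set Df : ι → ℝ → ℝ := fun i s =>
    (s - 1) * ∑' w : Pr (K i), β i w * wt s w - (s - 1) * ∑' v : Pr k, α v * wt s v with hDf
  have hdiff : ∀ i, Tendsto (fun s => Df i s - y i s) (𝓝[>] 1) (𝓝 0) := by
    intro i
    obtain ⟨M, hM⟩ := hcmp i
    have t1 := mul_bdd_tendsto _ M hM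
    -- c times the mean of φ
    have t2 : Tendsto (fun s : ℝ => c * ((s - 1) * ∑' v : Pr k, N i v * wt s v -
        (s - 1) * ∑' v : Pr k, wt s v)) (𝓝[>] 1) (𝓝 0) := by
      have := ((hTN i).sub hA).const_mul c
      rwa [sub_self, mul_zero] at this
    -- the finite set R₀
    have hz0 : ∀ v, v ∉ R₀ → (α v - c - μ v) * φ i v = 0 := by
      intro v hv
      simp only [hα, hμ, hv, if_false]
      ring
    have hzb : ∀ v, |(α v - c - μ v) * φ i v| ≤ ((|c| + |B|) + |c| + |B|) * (d + 1) := by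
      intro v
      rw [abs_mul]
      refine mul_le_mul ?_ (hφb i v) (abs_nonneg _) (by positivity)
      have h1 := abs_sub (α v - c) (μ v)
      have h3 := abs_sub (α v) c
      have h4 := hαb v
      have h5 := hμb v
      linarith
    obtain ⟨M2, hM2⟩ := fin_bd h2 _ _ hzb R₀ hR₀ hz0
    have t3 := mul_bdd_tendsto _ M2 hM2
    have t := (t1.add t2).add t3
    rw [add_zero, add_zero] at t
    refine t.congr' ?_
    filter_upwards [self_mem_nhdsWithin] with s hs
    have hs' : (1 : ℝ) < s := hs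
    have sα : Summable (fun v : Pr k => α v * wt s v) := sumb hA2 α _ hαb s hs'
    have sNα : Summable (fun v : Pr k => (N i v * α v) * wt s v) := by
      refine sumb hA2 (fun v => N i v * α v) (d * (|c| + |B|)) ?_ s hs'
      intro v
      rw [abs_mul]
      exact mul_le_mul (hNabs i v) (hαb v) (abs_nonneg _) (by linarith)
    have sμ : Summable (fun v : Pr k => (μ v * φ i v) * wt s v) := by
      refine sumb hA2 (fun v => μ v * φ i v) (|B| * (d + 1)) ?_ s hs'
      intro v
      rw [abs_mul]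
      exact mul_le_mul (hμb v) (hφb i v) (abs_nonneg _) (abs_nonneg _)
    have ey : y i s = (s - 1) * ∑' v : Pr k, (μ v * φ i v) * wt s v := by
      simp only [hy]
      rw [← tsum_mul_left]
      congr 1
      funext v
      simp only [hW]
      ring
    have ez : ∑' v : Pr k, ((α v - c - μ v) * φ i v) * wt s v =
        ∑' v : Pr k, (N i v * α v) * wt s v - ∑' v : Pr k, α v * wt s v - c * ∑' v : Pr k, N i v * wt s v +
          c * ∑' v : Pr k, wt s v - ∑' v : Pr k, (μ v * φ i v) * wt s v := by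
      rw [← tsum_mul_left, ← tsum_mul_left, ← sNα.tsum_sub sα,
        ← (sNα.sub sα).tsum_sub ((hsumN i s hs').mul_left c),
        ← ((sNα.sub sα).sub ((hsumN i s hs').mul_left c)).tsum_add ((hsum1 s hs').mul_left c),
        ← (((sNα.sub sα).sub ((hsumN i s hs').mul_left c)).add
          ((hsum1 s hs').mul_left c)).tsum_sub sμ]
      congr 1
      funext v
      simp only [hφ]
      ring
    simp only [hDf]
    rw [ey, ez]
    ring
  intro ε hε
  -- the error term
  have hB1 := hBess 1 one_pos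
  set Y : ℝ := √(((d : ℝ) - 1) * |B| ^ 2 + 1) with hY
  have hlim : Tendsto (fun s => ∑ i, (2 * Y * |Df i s - y i s| + (Df i s - y i s) ^ 2))
      (𝓝[>] 1) (𝓝 0) := by
    have : Tendsto (fun s => ∑ i, (2 * Y * |Df i s - y i s| + (Df i s - y i s) ^ 2))
        (𝓝[>] 1) (𝓝 (∑ _i : ι, (2 * Y * |(0 : ℝ)| + (0 : ℝ) ^ 2))) := by
      refine tendsto_finsetSum _ (fun i _ => ?_)
      exact ((hdiff i).abs.const_mul _).add ((hdiff i).pow 2)
    simpa using this
  have hlim' := hlim.eventually_le_const (by linarith : (0 : ℝ) < ε / 2)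
  have hB2 := hBess (ε / 2) (by linarith)
  have hmain : ∀ᶠ s : ℝ in 𝓝[>] 1, ∑ i, (Df i s) ^ 2 ≤ ((d : ℝ) - 1) * B ^ 2 + ε := by
    filter_upwards [hB1, hB2, hlim'] with s g1 g2 g3
    have hyi : ∀ i, |y i s| ≤ Y := by
      intro i
      rw [hY]
      apply Real.abs_le_sqrt
      refine le_trans ?_ g1
      exact Finset.single_le_sum (f := fun i => (y i s) ^ 2) (fun j _ => sq_nonneg _)
        (Finset.mem_univ i)
    have hterm : ∀ i, (Df i s) ^ 2 ≤
        (y i s) ^ 2 + (2 * Y * |Df i s - y i s| + (Df i s - y i s) ^ 2) := by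
      intro i
      have h1 : y i s * (Df i s - y i s) ≤ Y * |Df i s - y i s| := by
        calc y i s * (Df i s - y i s) ≤ |y i s * (Df i s - y i s)| := le_abs_self _
          _ = |y i s| * |Df i s - y i s| := abs_mul _ _
          _ ≤ Y * |Df i s - y i s| := mul_le_mul_of_nonneg_right (hyi i) (abs_nonneg _)
      nlinarith
    calc ∑ i, (Df i s) ^ 2
        ≤ ∑ i, ((y i s) ^ 2 + (2 * Y * |Df i s - y i s| + (Df i s - y i s) ^ 2)) :=
          Finset.sum_le_sum (fun i _ => hterm i)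
      _ = ∑ i, (y i s) ^ 2 + ∑ i, (2 * Y * |Df i s - y i s| + (Df i s - y i s) ^ 2) :=
          Finset.sum_add_distrib
      _ ≤ (((d : ℝ) - 1) * |B| ^ 2 + ε / 2) + ε / 2 := add_le_add g2 g3
      _ = ((d : ℝ) - 1) * B ^ 2 + ε := by rw [sq_abs]; ring
  have hsub : Tendsto (fun s : ℝ => s - 1) (𝓝[>] 2) (𝓝[>] 1) := by
    refine tendsto_nhdsWithin_iff.mpr ⟨?_, ?_⟩
    · have : Tendsto (fun s : ℝ => s - 1) (𝓝 2) (𝓝 (2 - 1)) :=
        (Continuous.tendsto (by fun_prop) 2)
      have e : (2 : ℝ) - 1 = 1 := by norm_num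
      rw [e] at this
      exact this.mono_left nhdsWithin_le_nhds
    · filter_upwards [self_mem_nhdsWithin] with s hs
      have hs' : (2 : ℝ) < s := hs
      show (1 : ℝ) < s - 1
      linarith
  filter_upwards [hsub.eventually hmain] with s hs
  refine le_trans (le_of_eq ?_) hs
  refine Finset.sum_congr rfl (fun i _ => ?_)
  simp only [hDf]
  rw [hFK0, hFKi]
  have e : s - 1 - 1 = s - 2 := by ring
  rw [e]

end Pool.Agent.Helper45.BC
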